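import Mathlib

set_option autoImplicit false

/-!
# Blocks

A block is a countable set `B` with a permutation group `P` and an invariant set `K` of `k`
elements, such that different points have different stabilisers, and such that the sets of at most
`k` points other than `K` are coded by permutations of `B`, in a way compatible with `P`.
For every `k ≥ 3` there is such a block: `B` is the disjoint union of `Fin k` and of the lattice `V`
of the integer vectors with `k` coordinates and sum `0`, and `P` is the affine group `V ⋊ Sym k`.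
-/

namespace Pool.Agent.KS6_45.FK

open Set Equiv

structure Blk (k : ℕ) where
  B : Type
  cnt : Countable B
  c0 : B
  P : Subgroup (Perm B)
  K : Set B
  Kcard : K.encard = k
  Kinv : ∀ ρ ∈ P, ρ '' K = K
  h1 : ∀ c, ∃ ρ ∈ P, ρ c ≠ c
  h2 : ∀ c d, c ≠ d → ∃ ρ ∈ P, (ρ c = c ∧ ρ d ≠ d) ∨ (ρ c ≠ c ∧ ρ d = d)
  h3 : ∃ D : Set B, D.Finite ∧ ∀ ρ ∈ P, (∀ d ∈ D, ρ d = d) → ρ = 1
  h4 : ∀ Y : Set B, Y.Finite → (∀ ρ ∈ P, ρ '' Y = Y) → Y.encard < k → Y = ∅
  π : Set B → Perm B
  π0 : π ∅ = 1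
  πe : ∀ ρ ∈ P, ∀ Y : Set B, Y.Finite → π (ρ '' Y) = ρ * π Y * ρ⁻¹
  πi : ∀ Y Y' : Set B, Y.encard ≤ k → Y'.encard ≤ k → Y ≠ K → Y' ≠ K → π Y = π Y' → Y = Y'

/-- a symmetric, irreflexive, functional relation gives an involution -/
theorem invol {X : Type} {R : X → X → Prop} (h0 : ∀ x, ¬ R x x) (h1 : ∀ x y, R x y → R y x)
    (h2 : ∀ x y z, R x y → R x z → y = z) : ∃ τ : Perm X, ∀ x y, (τ x = y ∧ x ≠ y) ↔ R x y := by
  choose f hf using fun x => show ∃ y, R x y ∨ y = x ∧ ∀ z, ¬ R x z from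
    (em (∃ y, R x y)).elim (·.imp fun _ => Or.inl) fun a => ⟨x, Or.inr ⟨rfl, not_exists.1 a⟩⟩
  have k : ∀ x y, R x y → f x = y := fun x y a => (hf x).elim (h2 _ _ _ · a) fun b => absurd a (b.2 y)
  have : Function.Involutive f := fun x => (hf x).elim (fun a => k _ _ (h1 _ _ a)) fun a => by
    rw [a.1, a.1]
  exact ⟨this.toPerm, fun x y => ⟨fun ⟨a, b⟩ => a ▸ (hf x).resolve_right fun c => b (c.1.symm.trans a),
    fun a => ⟨k x y a, fun b => h0 x (b ▸ a)⟩⟩⟩

theorem invol_uniq {X : Type} {R : X → X → Prop} {τ τ' : Perm X}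
    (h : ∀ x y, (τ x = y ∧ x ≠ y) ↔ R x y) (h' : ∀ x y, (τ' x = y ∧ x ≠ y) ↔ R x y) : τ = τ' := by
  refine Equiv.ext fun x => ?_
  by_cases a : τ x = x
  · by_contra b
    exact ((h x (τ' x)).2 ((h' x _).1 ⟨rfl, fun c => b (a.trans c)⟩)).2
      (a.symm.trans ((h x (τ' x)).2 ((h' x _).1 ⟨rfl, fun c => b (a.trans c)⟩)).1)
  · exact ((h' x (τ x)).2 ((h x _).1 ⟨rfl, Ne.symm a⟩)).1.symm

variable {k : ℕ}

/-- the integer vectors with `k` coordinates and sum `0` -/
def V (k : ℕ) : AddSubgroup (Fin k → ℤ) where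
  carrier := {v | ∑ i, v i = 0}
  zero_mem' := by simp
  add_mem' {a b} ha hb := by
    simp only [Set.mem_ofPred_eq] at *
    simp [Finset.sum_add_distrib, ha, hb]
  neg_mem' {a} ha := by
    simp only [Set.mem_ofPred_eq] at *
    simp [ha]

/-- permutation of the coordinates -/
def pv (g : Perm (Fin k)) : V k ≃+ V k where
  toFun v := ⟨fun i => v.1 (g⁻¹ i), (Equiv.sum_comp g⁻¹ v.1).trans v.2⟩
  invFun v := ⟨fun i => v.1 (g i), (Equiv.sum_comp g v.1).trans v.2⟩
  left_inv v := by ext i; simp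
  right_inv v := by ext i; simp
  map_add' v w := rfl

theorem pv_val (g : Perm (Fin k)) (v : V k) (i : Fin k) : (pv g v).1 (g i) = v.1 i := by
  show v.1 (g⁻¹ (g i)) = _
  simp

theorem pv_mul (g h : Perm (Fin k)) (v : V k) : pv (g * h) v = pv g (pv h v) := rfl
theorem pv_one (v : V k) : pv 1 v = v := rfl
theorem pv_inv (g : Perm (Fin k)) (v : V k) : pv g⁻¹ (pv g v) = v := by
  rw [← pv_mul, inv_mul_cancel, pv_one]

/-- the affine map `v ↦ g v + b`, acting on the coordinates by `g` -/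
def af (g : Perm (Fin k)) (b : V k) : Perm (Fin k ⊕ V k) :=
  Equiv.sumCongr g ((pv g).toEquiv.trans (Equiv.addRight b))

theorem af_inl (g : Perm (Fin k)) (b : V k) (c : Fin k) : af g b (Sum.inl c) = Sum.inl (g c) := rfl
theorem af_inr (g : Perm (Fin k)) (b v : V k) : af g b (Sum.inr v) = Sum.inr (pv g v + b) := rfl

def PP (k : ℕ) : Subgroup (Perm (Fin k ⊕ V k)) where
  carrier := {ρ | ∃ g b, ρ = af g b}
  one_mem' := ⟨1, 0, by ext (c | v) <;> simp [af_inl, af_inr, pv_one]⟩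
  mul_mem' := by
    rintro _ _ ⟨g, b, rfl⟩ ⟨h, c, rfl⟩
    refine ⟨g * h, pv g c + b, Equiv.ext ?_⟩
    rintro (x | v)
    · rfl
    · simp only [Perm.mul_apply, af_inr, pv_mul, map_add, add_assoc]
  inv_mem' := by
    rintro _ ⟨g, b, rfl⟩
    refine ⟨g⁻¹, - pv g⁻¹ b, inv_eq_of_mul_eq_one_right (Equiv.ext ?_)⟩
    rintro (x | v)
    · simp [af_inl]
    · simp only [Perm.mul_apply, af_inr, map_add, map_neg, Perm.one_apply, ← pv_mul,
        mul_inv_cancel, pv_one]
      simp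

theorem af_mem (g : Perm (Fin k)) (b : V k) : af g b ∈ PP k := ⟨g, b, rfl⟩

/-- the short nonzero vectors -/
def Dd (k : ℕ) : Set (V k) := {d | d ≠ 0 ∧ ∀ i, |d.1 i| ≤ 1}

theorem Dd_fin : (Dd k).Finite := by
  refine ((Set.finite_Icc (-1 : Fin k → ℤ) 1).preimage Subtype.val_injective.injOn).subset ?_
  intro d hd
  exact ⟨fun i => (abs_le.1 (hd.2 i)).1, fun i => (abs_le.1 (hd.2 i)).2⟩

theorem Dd_neg {d : V k} (h : d ∈ Dd k) : -d ∈ Dd k :=
  ⟨neg_ne_zero.2 h.1, fun i => by simpa using h.2 i⟩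

theorem Dd_pv (g : Perm (Fin k)) {d : V k} (h : d ∈ Dd k) : pv g d ∈ Dd k :=
  ⟨fun e => h.1 ((pv g).injective (e.trans (map_zero _).symm)), fun _ => h.2 _⟩

/-- the vector `e_a - e_b` -/
def ed (a b : Fin k) : V k := ⟨Pi.single a 1 - Pi.single b 1, by
  show ∑ i, _ = 0
  simp [Finset.sum_sub_distrib, Finset.sum_pi_single']⟩

theorem ed_val (a b i : Fin k) : (ed a b).1 i = (Pi.single a 1 : Fin k → ℤ) i - (Pi.single b 1 : Fin k → ℤ) i := rfl

theorem ed_mem {a b : Fin k} (h : a ≠ b) : ed a b ∈ Dd k := by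
  refine ⟨fun e => ?_, fun i => ?_⟩
  · have := congrFun (congrArg Subtype.val e) a
    rw [ed_val] at this
    simp [h] at this
  · rw [ed_val, Pi.single_apply, Pi.single_apply]
    split_ifs <;> simp

/-- no difference of two points of `Y` is `n` times a vector -/
def Gd (Y : Set (V k)) (n : ℕ) : Prop := 1 ≤ n ∧ ∀ p ∈ Y, ∀ q ∈ Y, p ≠ q → ∀ w : V k, p - q ≠ n • w

theorem gd_ex {Y : Set (V k)} (h : Y.Finite) : ∃ n, Gd Y n := by
  have : ∀ᶠ n : ℕ in Filter.atTop, ∀ p ∈ Y, ∀ q ∈ Y, p ≠ q → ∀ w : V k, p - q ≠ n • w := by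
    rw [Filter.eventually_all_finite h]
    intro p _
    rw [Filter.eventually_all_finite h]
    intro q _
    by_cases e : p = q
    · exact Filter.Eventually.of_forall fun n a => absurd e a
    obtain ⟨i, hi⟩ : ∃ i, p.1 i ≠ q.1 i := by
      by_contra a
      push Not at a
      exact e (Subtype.ext (funext a))
    filter_upwards [Filter.eventually_gt_atTop ((p.1 i - q.1 i).natAbs)] with n hn _ w hw
    have h1 : p.1 i - q.1 i = n * w.1 i := by
      have := congrFun (congrArg Subtype.val hw) i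
      simpa using this
    have h2 : w.1 i ≠ 0 := fun a => hi (by rw [a] at h1; linarith)
    have h3 : (p.1 i - q.1 i).natAbs = n * (w.1 i).natAbs := by
      rw [h1, Int.natAbs_mul, Int.natAbs_natCast]
    have h4 : 1 ≤ (w.1 i).natAbs := Nat.one_le_iff_ne_zero.2 (Int.natAbs_ne_zero.2 h2)
    nlinarith
  obtain ⟨n, h1, h2⟩ := (this.and (Filter.eventually_ge_atTop 1)).exists
  exact ⟨n, h2, h1⟩

open Classical in
noncomputable def NN (Y : Set (V k)) : ℕ := sInf {n | Gd Y n}

theorem NN_gd {Y : Set (V k)} (h : Y.Finite) : Gd Y (NN Y) := Nat.sInf_mem (gd_ex h)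

theorem gd_af {Y : Set (V k)} {n : ℕ} (g : Perm (Fin k)) (b : V k) (h : Gd Y n) :
    Gd ((fun v => pv g v + b) '' Y) n := by
  refine ⟨h.1, ?_⟩
  rintro _ ⟨p, hp, rfl⟩ _ ⟨q, hq, rfl⟩ e w hw
  refine h.2 p hp q hq (fun a => e (a ▸ rfl)) (pv g⁻¹ w) ?_
  have := congrArg (pv g⁻¹) hw
  simpa [map_sub, pv_inv] using this

theorem NN_af (Y : Set (V k)) (g : Perm (Fin k)) (b : V k) :
    NN ((fun v => pv g v + b) '' Y) = NN Y := by
  refine congrArg sInf (Set.ext fun n => ⟨fun h => ?_, gd_af g b⟩)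
  have := gd_af g⁻¹ (- pv g⁻¹ b) h
  rw [image_image] at this
  simpa [pv_inv] using this

/-- reflection in the points of `Y`, close to the point -/
def Rf (Y : Set (V k)) (x y : V k) : Prop :=
  ∃ p ∈ Y, ∃ d ∈ Dd k, x = p + NN Y • d ∧ y = p - NN Y • d

theorem smul_inj {n : ℕ} (h : 1 ≤ n) {v w : V k} (e : n • v = n • w) : v = w := by
  refine Subtype.ext (funext fun i => ?_)
  have := congrFun (congrArg Subtype.val e) i
  simp only [AddSubgroup.coe_nsmul, Pi.smul_apply, nsmul_eq_mul] at this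
  exact mul_left_cancel₀ (by positivity) this

theorem rf_uniq {Y : Set (V k)} (h : Y.Finite) {x p q d e : V k} (hp : p ∈ Y) (hq : q ∈ Y)
    (h1 : x = p + NN Y • d) (h2 : x = q + NN Y • e) : p = q ∧ d = e := by
  have a : p = q := by
    by_contra c
    refine (NN_gd h).2 p hp q hq c (e - d) ?_
    rw [nsmul_sub, sub_eq_sub_iff_add_eq_add, ← h1, h2, add_comm]
  subst a
  exact ⟨rfl, smul_inj (NN_gd h).1 (add_left_cancel (h1.symm.trans h2))⟩

theorem ex_tau (Y : Set (V k)) : ∃ τ : Perm (V k), Y.Finite → ∀ x y, (τ x = y ∧ x ≠ y) ↔ Rf Y x y := by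
  by_cases h : Y.Finite
  · obtain ⟨τ, hτ⟩ := invol (R := Rf Y) (by
      rintro x ⟨p, hp, d, hd, h1, h2⟩
      have : x = p + NN Y • (-d) := by rw [h2]; simp [sub_eq_add_neg]
      obtain ⟨-, e⟩ := rf_uniq h hp hp h1 this
      exact hd.1 (self_eq_neg.1 e)) (by
      rintro x y ⟨p, hp, d, hd, rfl, rfl⟩
      exact ⟨p, hp, -d, Dd_neg hd, by simp [sub_eq_add_neg], by simp⟩) (by
      rintro x y z ⟨p, hp, d, hd, h1, rfl⟩ ⟨q, hq, e, he, h2, rfl⟩
      obtain ⟨rfl, rfl⟩ := rf_uniq h hp hq h1 h2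
      rfl)
    exact ⟨τ, fun _ => hτ⟩
  · exact ⟨1, fun a => absurd a h⟩

noncomputable def ta (Y : Set (V k)) : Perm (V k) := (ex_tau Y).choose

theorem ta_iff {Y : Set (V k)} (h : Y.Finite) {x y : V k} : (ta Y x = y ∧ x ≠ y) ↔ Rf Y x y :=
  (ex_tau Y).choose_spec h x y

theorem ta_fin {Y : Set (V k)} (h : Y.Finite) : {x | ta Y x ≠ x}.Finite := by
  refine ((h.prod (Dd_fin (k := k))).image fun p => p.1 + NN Y • p.2).subset fun x hx => ?_
  obtain ⟨p, hp, d, hd, h1, -⟩ := (ta_iff h).1 ⟨rfl, Ne.symm hx⟩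
  exact ⟨(p, d), ⟨hp, hd⟩, h1.symm⟩

theorem ta_mid {Y : Set (V k)} (h : Y.Finite) (hk : 2 ≤ k) (p : V k) :
    p ∈ Y ↔ ∃ x, ta Y x ≠ x ∧ x + ta Y x = 2 • p := by
  constructor
  · intro hp
    have hd : ed (⟨0, by omega⟩ : Fin k) ⟨1, by omega⟩ ∈ Dd k := ed_mem (by simp)
    obtain ⟨a, b⟩ := (ta_iff h).2 ⟨p, hp, _, hd, rfl, rfl⟩
    exact ⟨_, fun e => b (e.symm.trans a), by rw [a]; abel⟩
  · rintro ⟨x, h1, h2⟩
    obtain ⟨q, hq, d, hd, h3, h4⟩ := (ta_iff h).1 ⟨rfl, Ne.symm h1⟩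
    have : 2 • q = 2 • p := by rw [← h2, h4, h3]; abel
    rwa [← smul_inj (by norm_num) this]

theorem ta_af {Y : Set (V k)} (h : Y.Finite) (g : Perm (Fin k)) (b x : V k) :
    ta ((fun v => pv g v + b) '' Y) (pv g x + b) = pv g (ta Y x) + b := by
  have h' := h.image fun v => pv g v + b
  by_cases e : ta Y x = x
  · rw [e]
    by_contra c
    obtain ⟨_, ⟨p, hp, rfl⟩, d, hd, h1, h2⟩ := (ta_iff h').1 ⟨rfl, Ne.symm c⟩
    rw [NN_af] at h1 h2
    refine ((ta_iff h).2 ⟨p, hp, pv g⁻¹ d, Dd_pv _ hd, ?_, rfl⟩).2 (e.symm.trans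
      ((ta_iff h).2 ⟨p, hp, pv g⁻¹ d, Dd_pv _ hd, ?_, rfl⟩).1) <;>
    · apply (pv g).injective
      rw [map_add, map_nsmul, ← pv_mul, mul_inv_cancel, pv_one]
      exact add_right_cancel (h1.trans (add_right_comm _ _ _))
  · obtain ⟨p, hp, d, hd, h1, h2⟩ := (ta_iff h).1 ⟨rfl, Ne.symm e⟩
    refine ((ta_iff h').2 ⟨_, ⟨p, hp, rfl⟩, pv g d, Dd_pv _ hd, ?_, ?_⟩).1
    · rw [NN_af, h1, map_add, map_nsmul]; exact add_right_comm _ _ _
    · rw [NN_af, h2, map_sub, map_nsmul]; exact sub_add_eq_add_sub _ _ _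

open Classical in
/-- the vector of the subset `Y` of the coordinates -/
noncomputable def vc (Y : Set (Fin k)) : V k :=
  ⟨fun i => k * (if i ∈ Y then 1 else 0) - ∑ j, if j ∈ Y then 1 else 0, by
    show ∑ i, _ = 0
    simp only [Finset.sum_sub_distrib, ← Finset.mul_sum, Finset.sum_const, Finset.card_univ,
      Fintype.card_fin, nsmul_eq_mul, sub_self]⟩

open Classical in
theorem vc_val (Y : Set (Fin k)) (i : Fin k) :
    (vc Y).1 i = k * (if i ∈ Y then 1 else 0) - ∑ j, if j ∈ Y then 1 else 0 := rfl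

theorem vc_pv (g : Perm (Fin k)) (Y : Set (Fin k)) : vc (g '' Y) = pv g (vc Y) := by
  classical
  refine Subtype.ext (funext fun i => ?_)
  obtain ⟨i, rfl⟩ := g.surjective i
  rw [pv_val, vc_val, vc_val, ← Equiv.sum_comp g]
  simp only [g.injective.mem_set_image]

theorem vc_inj {Y Y' : Set (Fin k)} (hk : 1 ≤ k) (e : vc Y = vc Y') (h : Y ≠ univ) (h' : Y' ≠ univ) :
    Y = Y' := by
  classical
  have key : ∀ i j, ((if i ∈ Y then 1 else 0 : ℤ) - if j ∈ Y then 1 else 0) =
      (if i ∈ Y' then 1 else 0) - if j ∈ Y' then 1 else 0 := fun i j => by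
    have h1 := congrFun (congrArg Subtype.val e) i
    have h2 := congrFun (congrArg Subtype.val e) j
    rw [vc_val, vc_val] at h1 h2
    have hk' : (k : ℤ) ≠ 0 := by positivity
    refine mul_left_cancel₀ hk' ?_
    linarith
  obtain ⟨j, hj⟩ := (Set.ne_univ_iff_exists_notMem _).1 h
  obtain ⟨j', hj'⟩ := (Set.ne_univ_iff_exists_notMem _).1 h'
  have c : j ∉ Y' := by
    intro a
    have := key j' j
    simp only [hj, hj', a, if_true, if_false] at this
    split_ifs at this <;> norm_num at this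
  ext i
  have := key i j
  simp only [hj, c, if_false] at this
  by_cases a : i ∈ Y <;> by_cases b : i ∈ Y' <;> simp_all

theorem vc_empty : vc (∅ : Set (Fin k)) = 0 := by
  refine Subtype.ext (funext fun i => ?_)
  rw [vc_val]; simp

theorem ta_empty : ta (∅ : Set (V k)) = 1 := by
  refine Equiv.ext fun x => ?_
  by_contra c
  obtain ⟨p, hp, -⟩ := (ta_iff finite_empty).1 ⟨rfl, Ne.symm c⟩
  exact hp

/-- the permutation coding the set `Y` -/
noncomputable def cd (Y : Set (Fin k ⊕ V k)) : Perm (Fin k ⊕ V k) :=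
  Equiv.sumCongr 1 (Equiv.addRight (vc (Sum.inl ⁻¹' Y)) * ta (Sum.inr ⁻¹' Y))

theorem cd_inl (Y : Set (Fin k ⊕ V k)) (c : Fin k) : cd Y (Sum.inl c) = Sum.inl c := rfl
theorem cd_inr (Y : Set (Fin k ⊕ V k)) (v : V k) :
    cd Y (Sum.inr v) = Sum.inr (ta (Sum.inr ⁻¹' Y) v + vc (Sum.inl ⁻¹' Y)) := rfl

theorem pre_inl (g : Perm (Fin k)) (b : V k) (Y : Set (Fin k ⊕ V k)) :
    Sum.inl ⁻¹' (af g b '' Y) = g '' (Sum.inl ⁻¹' Y) := by
  ext i
  constructor
  · rintro ⟨c | v, h, e⟩
    · exact ⟨c, h, Sum.inl_injective e⟩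
    · exact absurd e (by simp [af_inr])
  · rintro ⟨c, h, rfl⟩
    exact ⟨_, h, rfl⟩

theorem pre_inr (g : Perm (Fin k)) (b : V k) (Y : Set (Fin k ⊕ V k)) :
    Sum.inr ⁻¹' (af g b '' Y) = (fun v => pv g v + b) '' (Sum.inr ⁻¹' Y) := by
  ext i
  constructor
  · rintro ⟨c | v, h, e⟩
    · exact absurd e (by simp [af_inl])
    · exact ⟨v, h, Sum.inr_injective e⟩
  · rintro ⟨c, h, rfl⟩
    exact ⟨_, h, rfl⟩

theorem V_inf (hk : 2 ≤ k) : Infinite (V k) := by
  have e : ed (⟨0, by omega⟩ : Fin k) ⟨1, by omega⟩ ∈ Dd k := ed_mem (by simp)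
  refine Infinite.of_injective (fun n : ℕ => (n + 1) • ed (⟨0, by omega⟩ : Fin k) ⟨1, by omega⟩) ?_
  intro m n h
  have := congrFun (congrArg Subtype.val h) ⟨0, by omega⟩
  simp only [AddSubgroup.coe_nsmul, Pi.smul_apply, ed_val] at this
  simpa [Pi.single_apply] using this

theorem kset : (range (Sum.inl : Fin k → Fin k ⊕ V k)).encard = k := by
  rw [← image_univ, Sum.inl_injective.encard_image, Set.encard_univ]
  simp

theorem aux1 {G : Type} [AddCommGroup G] (a v b w : G) (h : a + (v - b) = w) : a - b = w - v := by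
  rw [← h]; abel

theorem ex_blk (hk : 3 ≤ k) : Nonempty (Blk k) := by
  have hinf := V_inf (k := k) (by omega)
  have ext1 : ∀ Y : Set (Fin k ⊕ V k), Y.encard ≤ k → Y ≠ range Sum.inl → Sum.inl ⁻¹' Y ≠ univ := by
    intro Y h1 h2 h3
    have h4 : range Sum.inl ⊆ Y := by
      rintro _ ⟨c, rfl⟩
      exact h3.ge trivial
    have hf : Y.Finite := Set.encard_lt_top_iff.1 (h1.trans_lt (by simp))
    exact h2 ((finite_range _).eq_of_subset_of_encard_le h4 (by rw [kset]; exact h1)).symm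
  exact ⟨{
    B := Fin k ⊕ V k
    cnt := inferInstance
    c0 := Sum.inl ⟨0, by omega⟩
    P := PP k
    K := range Sum.inl
    Kcard := kset
    Kinv := by
      rintro _ ⟨g, b, rfl⟩
      ext x
      constructor
      · rintro ⟨_, ⟨c, rfl⟩, rfl⟩
        exact ⟨_, rfl⟩
      · rintro ⟨c, rfl⟩
        exact ⟨_, ⟨g⁻¹ c, rfl⟩, by simp [af_inl]⟩
    h1 := by
      rintro (c | v)
      · obtain ⟨d, hd⟩ : ∃ d : Fin k, d ≠ c := by
          have : Nontrivial (Fin k) := Fin.nontrivial_iff_two_le.2 (by omega)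
          exact exists_ne c
        refine ⟨_, af_mem (Equiv.swap c d) 0, ?_⟩
        rw [af_inl, Equiv.swap_apply_left]
        exact fun e => hd (Sum.inl_injective e)
      · have e : ed (⟨0, by omega⟩ : Fin k) ⟨1, by omega⟩ ∈ Dd k := ed_mem (by simp)
        refine ⟨_, af_mem 1 (ed ⟨0, by omega⟩ ⟨1, by omega⟩), ?_⟩
        rw [af_inr, pv_one]
        intro h
        exact e.1 (by simpa using Sum.inr_injective h)
    h2 := by
      have e : ed (⟨0, by omega⟩ : Fin k) ⟨1, by omega⟩ ∈ Dd k := ed_mem (by simp)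
      rintro (c | v) (d | w) h
      · obtain ⟨x, h1, h2⟩ : ∃ x : Fin k, x ≠ c ∧ x ≠ d := by
          have : 2 < Fintype.card (Fin k) := by simpa using by omega
          obtain ⟨x, hx⟩ := Finset.exists_mem_notMem_of_card_lt_card
            (s := {c, d}) (t := Finset.univ) (by
              rw [Finset.card_univ]
              exact (Finset.card_le_two).trans_lt this)
          simp only [Finset.mem_univ, Finset.mem_insert, Finset.mem_singleton, true_and, not_or] at hx
          exact ⟨x, hx.1, hx.2⟩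
        have hcd : c ≠ d := fun e => h (e ▸ rfl)
        refine ⟨_, af_mem (Equiv.swap d x) 0, Or.inl ⟨?_, ?_⟩⟩
        · rw [af_inl, Equiv.swap_apply_of_ne_of_ne hcd (Ne.symm h1)]
        · rw [af_inl, Equiv.swap_apply_left]
          exact fun e => h2 (Sum.inl_injective e)
      · refine ⟨_, af_mem 1 (ed ⟨0, by omega⟩ ⟨1, by omega⟩), Or.inl ⟨rfl, ?_⟩⟩
        rw [af_inr, pv_one]
        intro h
        exact e.1 (by simpa using Sum.inr_injective h)
      · refine ⟨_, af_mem 1 (ed ⟨0, by omega⟩ ⟨1, by omega⟩), Or.inr ⟨?_, rfl⟩⟩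
        rw [af_inr, pv_one]
        intro h
        exact e.1 (by simpa using Sum.inr_injective h)
      · have hvw : v ≠ w := fun e => h (e ▸ rfl)
        obtain ⟨i, j, hij⟩ : ∃ i j, (w - v).1 i ≠ (w - v).1 j := by
          by_contra a
          push Not at a
          have h0 : ∀ i, (w - v).1 i = 0 := by
            intro i
            have h1 : ∑ j, (w - v).1 j = 0 := (w - v).2
            have h2 : ∑ j, (w - v).1 j = k * (w - v).1 i := by
              rw [Finset.sum_congr rfl fun j _ => a j i, Finset.sum_const, Finset.card_univ, Fintype.card_fin,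
                nsmul_eq_mul]
            have hk' : (k : ℤ) ≠ 0 := by positivity
            exact (mul_eq_zero.1 (h2.symm.trans h1)).resolve_left hk'
          exact hvw (sub_eq_zero.1 (Subtype.ext (funext h0))).symm
        refine ⟨_, af_mem (Equiv.swap i j) (v - pv (Equiv.swap i j) v), Or.inl ⟨?_, ?_⟩⟩
        · rw [af_inr]; simp
        · rw [af_inr]
          intro h
          have h3 : pv (Equiv.swap i j) (w - v) = w - v := by
            have h5 := Sum.inr_injective h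
            rw [map_sub]
            exact aux1 _ _ _ _ h5
          have h4 := pv_val (Equiv.swap i j) (w - v) i
          rw [h3, Equiv.swap_apply_left] at h4
          exact hij h4.symm
    h3 := by
      refine ⟨insert (Sum.inr 0) (range Sum.inl), (finite_range _).insert _, ?_⟩
      rintro _ ⟨g, b, rfl⟩ h
      have hb : b = 0 := by
        have := Sum.inr_injective (h _ (mem_insert _ _))
        simpa using this
      have hg : g = 1 := Equiv.ext fun c => Sum.inl_injective (h _ (mem_insert_of_mem _ ⟨c, rfl⟩))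
      subst hb; subst hg
      ext (c | v) <;> simp [af_inl, af_inr, pv_one]
    h4 := by
      intro Y h1 h2 h3
      by_contra h4
      obtain ⟨c | v, hc⟩ := nonempty_iff_ne_empty.2 h4
      · have : range Sum.inl ⊆ Y := by
          rintro _ ⟨d, rfl⟩
          rw [← h2 _ (af_mem (Equiv.swap c d) 0)]
          exact ⟨_, hc, by rw [af_inl, Equiv.swap_apply_left]⟩
        exact absurd (encard_le_encard this) (by rw [kset]; exact not_le.2 h3)
      · have : range (Sum.inr : V k → Fin k ⊕ V k) ⊆ Y := by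
          rintro _ ⟨w, rfl⟩
          rw [← h2 _ (af_mem 1 (w - v))]
          exact ⟨_, hc, by rw [af_inr, pv_one]; simp⟩
        exact Set.infinite_range_of_injective Sum.inr_injective (h1.subset this)
    π := cd
    π0 := by
      refine Equiv.ext ?_
      rintro (c | v)
      · rfl
      · rw [cd_inr]
        simp [ta_empty, vc_empty]
    πe := by
      rintro _ ⟨g, b, rfl⟩ Y hY
      refine eq_mul_inv_iff_mul_eq.2 (Equiv.ext ?_)
      rintro (c | v)
      · rfl
      · simp only [Perm.mul_apply, af_inr, cd_inr]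
        rw [pre_inl, pre_inr, vc_pv, ta_af (hY.preimage Sum.inr_injective.injOn), map_add]
        congr 1
        abel
    πi := by
      intro Y Y' h1 h2 h3 h4 e
      have hf : Y.Finite := Set.encard_lt_top_iff.1 (h1.trans_lt (by simp))
      have hf' : Y'.Finite := Set.encard_lt_top_iff.1 (h2.trans_lt (by simp))
      have f1 := hf.preimage (f := Sum.inr) Sum.inr_injective.injOn
      have f2 := hf'.preimage (f := Sum.inr) Sum.inr_injective.injOn
      have key : ∀ v, ta (Sum.inr ⁻¹' Y) v + vc (Sum.inl ⁻¹' Y) =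
          ta (Sum.inr ⁻¹' Y') v + vc (Sum.inl ⁻¹' Y') := fun v =>
        Sum.inr_injective (congrFun (congrArg DFunLike.coe e) (Sum.inr v))
      have e1 : vc (Sum.inl ⁻¹' Y) = vc (Sum.inl ⁻¹' Y') := by
        obtain ⟨v, hv⟩ := ((ta_fin f1).union (ta_fin f2)).infinite_compl.nonempty
        simp only [mem_compl_iff, mem_union, mem_ofPred_eq, not_or, not_not] at hv
        have := key v
        rw [hv.1, hv.2] at this
        exact add_left_cancel this
      have e2 : ta (Sum.inr ⁻¹' Y) = ta (Sum.inr ⁻¹' Y') := Equiv.ext fun v => by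
        have := key v
        rw [e1] at this
        exact add_right_cancel this
      have e3 : Sum.inl ⁻¹' Y = Sum.inl ⁻¹' Y' := vc_inj (by omega) e1 (ext1 Y h1 h3) (ext1 Y' h2 h4)
      have e4 : Sum.inr ⁻¹' Y = Sum.inr ⁻¹' Y' := Set.ext fun p => by
        rw [ta_mid f1 (by omega), ta_mid f2 (by omega), e2]
      ext (c | v)
      · exact Set.ext_iff.1 e3 c
      · exact Set.ext_iff.1 e4 v }⟩

end Pool.Agent.KS6_45.FK
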