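import Pool.Graph.R_pool_sql_team_ae5b0c61.H40.JzDefs5

set_option autoImplicit false

/-! Notions interpreted in a structure `(M, E)` for the language of set theory. -/

namespace Pool.Agent.KS6_45.FK

open Pool.Agent.H40.Bspt Pool.Agent.H40.Jz

variable {M : Type} (E : M → M → Prop)

/-- `X` is a subset of `A` with exactly `n` elements (`n` a natural number of the metatheory) -/
def IsSubN (n : ℕ) (A X : M) : Prop :=
  ∃ f : Fin n → M, Function.Injective f ∧ (∀ i, E (f i) A) ∧ ∀ z, E z X ↔ ∃ i, z = f i

/-- `f` gives an injection of `a` into `b` -/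
def Inj (f a b : M) : Prop :=
  (∀ x, E x a → ∃ y, (E y b ∧ App E f x y) ∧ ∀ y', E y' b ∧ App E f x y' → y' = y) ∧
    ∀ x x' y, E x a → E x' a → E y b → App E f x y → App E f x' y → x = x'

end Pool.Agent.KS6_45.FK
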