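import Pool.Agent.KS6_45.FK.Block

set_option autoImplicit false

/-!
# Permutation models in which every permutation owns a block of atoms

(The construction is that of the module `H40.Fac1` of the library, with general blocks.)
-/

namespace Pool.Agent.KS6_45.FK

open Set Sum Equiv Cardinal

abbrev I : Type := ℕ × ℝ

variable {k : ℕ} (b : Blk k)

abbrev A : Type := ℕ ⊕ I × b.B

/-- the permutations of the atoms fixing the natural numbers and mapping blocks to blocks -/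
def W : Subgroup (Perm (A b)) where
  carrier := {g | (∀ n, g (inl n) = inl n) ∧ ∀ i, ∃ j, ∃ ρ ∈ b.P, ∀ c, g (inr (i, c)) = inr (j, ρ c)}
  one_mem' := ⟨fun _ => rfl, fun i => ⟨i, 1, b.P.one_mem, fun _ => rfl⟩⟩
  mul_mem' {g h} hg hh := ⟨fun n => by rw [Perm.mul_apply, hh.1, hg.1], fun i => by
    obtain ⟨j, ρ, h1, h2⟩ := hh.2 i
    obtain ⟨l, ρ', h3, h4⟩ := hg.2 j
    exact ⟨l, ρ' * ρ, b.P.mul_mem h3 h1, fun c => by rw [Perm.mul_apply, h2, h4]; rfl⟩⟩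
  inv_mem' {g} hg := ⟨fun n => by rw [Perm.inv_eq_iff_eq, hg.1], fun i => by
    rcases e : g⁻¹ (inr (i, b.c0)) with n | ⟨j, d⟩
    · rw [Perm.inv_eq_iff_eq, hg.1] at e
      exact absurd e (by simp)
    · obtain ⟨l, ρ, h3, h4⟩ := hg.2 j
      rw [Perm.inv_eq_iff_eq, h4] at e
      obtain rfl : i = l := (Prod.ext_iff.1 (inr_injective e)).1
      refine ⟨j, ρ⁻¹, b.P.inv_mem h3, fun c => ?_⟩
      rw [Perm.inv_eq_iff_eq, h4]
      simp⟩

variable {b}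

noncomputable def bl (g : W b) (i : I) : I := (g.2.2 i).choose

theorem bl_spec (g : W b) (i : I) : ∃ ρ ∈ b.P, ∀ c, g.1 (inr (i, c)) = inr (bl g i, ρ c) :=
  (g.2.2 i).choose_spec

theorem bl_eq {g : W b} {i j : I} {c d : b.B} (h : g.1 (inr (i, c)) = inr (j, d)) : bl g i = j := by
  obtain ⟨ρ, -, h1⟩ := bl_spec g i
  rw [h1] at h
  exact (Prod.ext_iff.1 (inr_injective h)).1

theorem bl_inv (g : W b) (i : I) : bl g (bl g⁻¹ i) = i := by
  obtain ⟨ρ, -, h1⟩ := bl_spec g⁻¹ i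
  refine bl_eq (c := ρ b.c0) (d := b.c0) ?_
  rw [← h1]
  exact g.1.apply_symm_apply _

def mv (σ : Perm (A b)) : Set I := {i | ∃ c, σ (inr (i, c)) ≠ inr (i, c)}

theorem mv_conj (g : W b) (σ : Perm (A b)) (i : I) : bl g i ∈ mv (g.1 * σ * g.1⁻¹) ↔ i ∈ mv σ := by
  obtain ⟨ρ, -, h1⟩ := bl_spec g i
  have : ∀ c, (g.1 * σ * g.1⁻¹) (inr (bl g i, ρ c)) = g.1 (σ (inr (i, c))) := fun c => by
    rw [← h1]; simp
  constructor
  · rintro ⟨c, hc⟩
    obtain ⟨c, rfl⟩ := ρ.surjective c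
    exact ⟨c, fun e => hc (by rw [this, e, h1])⟩
  · rintro ⟨c, hc⟩
    exact ⟨ρ c, fun e => hc (g.1.injective (by rw [← this, e, h1]))⟩

variable (b) in
/-- the permutations that move points of finitely many blocks only -/
def S : Type := {σ : Perm (A b) // (mv σ).Finite}

noncomputable instance : MulAction (W b) (S b) where
  smul g σ := ⟨g.1 * σ.1 * g.1⁻¹, (σ.2.image (bl g)).subset fun i h =>
    ⟨bl g⁻¹ i, (mv_conj g _ _).1 (by rwa [bl_inv]), bl_inv g i⟩⟩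
  one_smul σ := Subtype.ext (by show 1 * σ.1 * 1⁻¹ = _; simp)
  mul_smul g h σ := Subtype.ext (by
    show g.1 * h.1 * σ.1 * (g.1 * h.1)⁻¹ = g.1 * (h.1 * σ.1 * h.1⁻¹) * g.1⁻¹
    group)

theorem sm_val (g : W b) (σ : S b) : (g • σ).1 = g.1 * σ.1 * g.1⁻¹ := rfl

theorem fix_conj {g : W b} {σ : S b} (h : ∀ i ∈ mv σ.1, ∀ c, g.1 (inr (i, c)) = inr (i, c)) :
    g • σ = σ := by
  have e : ∀ x, σ.1 x ≠ x → g.1 x = x := by
    rintro (n | ⟨i, c⟩) a
    · exact g.2.1 n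
    · exact h i ⟨c, a⟩ c
  refine Subtype.ext (mul_inv_eq_iff_eq_mul.2 (Equiv.ext fun x => ?_))
  show g.1 (σ.1 x) = σ.1 (g.1 x)
  by_cases a : σ.1 x = x
  · rw [a]
    by_contra b
    exact b (by rw [g.1.injective (e _ (Ne.symm b)), a])
  · rw [e x a, e _ fun b => a (σ.1.injective b)]

theorem conj_congr {g g' : W b} {σ : S b} (h : ∀ i ∈ mv σ.1, ∀ c, g.1 (inr (i, c)) = g'.1 (inr (i, c))) :
    g • σ = g' • σ := by
  rw [← inv_smul_eq_iff, ← mul_smul]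
  exact fix_conj fun i hi c => by
    show g'.1⁻¹ (g.1 _) = _
    rw [h i hi c]; simp

def lev : A b → ℕ := Sum.elim (fun _ => 0) fun p => p.1.1

noncomputable def lam (σ : S b) : ℕ := sSup ((fun i : I => i.1 + 1) '' mv σ.1)

theorem lev_lt {σ : S b} {i : I} (h : i ∈ mv σ.1) : i.1 < lam σ :=
  le_csSup (σ.2.image fun i : I => i.1 + 1).bddAbove ⟨i, h, rfl⟩

theorem lam_sm {g : W b} (h : ∀ x, lev (g.1 x) = lev x) (σ : S b) : lam (g • σ) = lam σ := by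
  have h' : ∀ i, (bl g i).1 = i.1 := fun i => by
    obtain ⟨ρ, -, h1⟩ := bl_spec g i
    have := h (inr (i, b.c0))
    rwa [h1] at this
  refine congrArg sSup (Set.ext fun n => ⟨?_, ?_⟩)
  · rintro ⟨i, a, rfl⟩
    refine ⟨bl g⁻¹ i, (mv_conj g _ _).1 (by rwa [bl_inv]), ?_⟩
    have := h' (bl g⁻¹ i)
    rw [bl_inv] at this
    show _ + 1 = _ + 1
    rw [this]
  · rintro ⟨i, a, rfl⟩
    exact ⟨bl g i, (mv_conj g _ _).2 a, congrArg (· + 1) (h' i)⟩

theorem cnt_supp (σ : S b) : {x | σ.1 x ≠ x}.Countable := by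
  have := b.cnt
  refine ((countable_range inl).union (σ.2.countable.biUnion fun i _ =>
    countable_range fun c : b.B => (inr (i, c) : A b))).mono ?_
  rintro (n | ⟨i, c⟩) h
  · exact Or.inl ⟨n, rfl⟩
  · exact Or.inr (mem_biUnion (x := i) ⟨c, h⟩ ⟨c, rfl⟩)

theorem mk_A : #(A b) ≤ 𝔠 := by
  have := b.cnt
  have h1 : #(b.B) ≤ 𝔠 := (mk_le_aleph0 (α := b.B)).trans aleph0_le_continuum
  simp only [A, I, mk_sum, mk_prod, lift_id, mk_real, mk_nat]
  calc (ℵ₀ + ℵ₀ * 𝔠 * #(b.B) : Cardinal) ≤ 𝔠 + 𝔠 * 𝔠 * 𝔠 :=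
        add_le_add aleph0_le_continuum (mul_le_mul' (mul_le_mul' aleph0_le_continuum le_rfl) h1)
    _ = 𝔠 := by simp

theorem ex_code : Nonempty (S b ↪ ℝ) := by
  have : ∀ σ : S b, ∃ s : ℕ → A b, {x | σ.1 x ≠ x} ⊆ range s := fun σ =>
    countable_iff_exists_subset_range.1 (cnt_supp σ)
  choose s hs using this
  refine (Cardinal.le_def _ _).1 ((mk_le_of_injective (f := fun σ n => (s σ n, σ.1 (s σ n)))
    fun σ τ e => Subtype.ext (Equiv.ext fun x => by_contra fun a => ?_)).trans ?_)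
  · have e1 : ∀ n, s σ n = s τ n := fun n => (Prod.ext_iff.1 (congrFun e n)).1
    have e2 : ∀ n, σ.1 (s σ n) = τ.1 (s σ n) := fun n => (Prod.ext_iff.1 (congrFun e n)).2.trans
      (by rw [e1])
    by_cases b : σ.1 x = x
    · obtain ⟨n, rfl⟩ := hs τ fun c => a (b.trans c.symm)
      exact a (e1 n ▸ e2 n)
    · obtain ⟨n, rfl⟩ := hs σ b
      exact a (e2 n)
  · rw [mk_real, mk_arrow, mk_prod]
    simp only [lift_id, mk_nat, lift_uzero]
    calc (#(A b) * #(A b)) ^ ℵ₀ ≤ (𝔠 * 𝔠) ^ ℵ₀ :=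
          power_le_power_right (mul_le_mul' mk_A mk_A)
      _ = 𝔠 := by simp

noncomputable def ι : S b ↪ I :=
  ⟨fun σ => (lam σ, ex_code.some σ), fun _ _ e => ex_code.some.injective (Prod.ext_iff.1 e).2⟩

noncomputable def Φ : W b →* Perm I := (Perm.viaEmbeddingHom ι).comp (MulAction.toPermHom (W b) (S b))

theorem phi_i (g : W b) (σ : S b) : Φ g (ι σ) = ι (g • σ) := Perm.viaEmbedding_apply _ _ _

theorem phi_n (g : W b) {i : I} (h : i ∉ range (ι (b := b))) : Φ g i = i :=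
  Perm.viaEmbedding_apply_of_notMem _ _ _ h

theorem phi_congr {g g' : W b} {i : I} (h : ∀ x, lev x < i.1 → g.1 x = g'.1 x) : Φ g i = Φ g' i := by
  by_cases a : i ∈ range (ι (b := b))
  · obtain ⟨σ, rfl⟩ := a
    rw [phi_i, phi_i, conj_congr fun i hi c => h _ (show i.1 < _ from lev_lt hi)]
  · rw [phi_n g a, phi_n g' a]

variable (b) in
def G : Subgroup (W b) where
  carrier := {g | ∀ i, ∃ ρ ∈ b.P, ∀ c, g.1 (inr (i, c)) = inr (Φ g i, ρ c)}
  one_mem' i := ⟨1, b.P.one_mem, fun c => by simp⟩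
  mul_mem' {g h} hg hh i := by
    obtain ⟨ρ, h1, h2⟩ := hh i
    obtain ⟨ρ', h3, h4⟩ := hg (Φ h i)
    exact ⟨ρ' * ρ, b.P.mul_mem h3 h1, fun c => by
      show g.1 (h.1 _) = _
      rw [h2, h4, map_mul]; rfl⟩
  inv_mem' {g} hg i := by
    obtain ⟨ρ, h1, h2⟩ := hg (Φ g⁻¹ i)
    refine ⟨ρ⁻¹, b.P.inv_mem h1, fun c => ?_⟩
    show g.1⁻¹ _ = _
    rw [Perm.inv_eq_iff_eq, h2, map_inv]
    simp

theorem prodShear_mem (φ : Perm I) (ρ : I → b.P) :
    Equiv.sumCongr 1 (Equiv.prodShear φ fun i => (ρ i).1) ∈ W b :=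
  ⟨fun _ => rfl, fun i => ⟨φ i, (ρ i).1, (ρ i).2, fun _ => rfl⟩⟩

noncomputable def gs (ρ : I → b.P) : ℕ → W b
  | 0 => 1
  | n + 1 => ⟨Equiv.sumCongr 1 (Equiv.prodShear (Φ (gs ρ n)) fun i => (ρ i).1), prodShear_mem _ ρ⟩

theorem gs_succ (ρ : I → b.P) (n : ℕ) (i : I) (c : b.B) :
    (gs ρ (n + 1)).1 (inr (i, c)) = inr (Φ (gs ρ n) i, (ρ i).1 c) := rfl

theorem gs_lev (ρ : I → b.P) (n : ℕ) : ∀ x, lev ((gs ρ n).1 x) = lev x := by
  induction n with
  | zero => exact fun _ => rfl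
  | succ n ih =>
    rintro (_ | ⟨i, c⟩)
    · rfl
    show (Φ (gs ρ n) i).1 = i.1
    by_cases a : i ∈ range (ι (b := b))
    · obtain ⟨σ, rfl⟩ := a
      rw [phi_i]
      exact lam_sm ih σ
    · rw [phi_n _ a]

theorem gs_st (ρ : I → b.P) (n : ℕ) : ∀ m x, lev x < n → lev x < m →
    (gs ρ n).1 x = (gs ρ m).1 x := by
  induction n with
  | zero => exact fun _ _ h => absurd h (by omega)
  | succ n ih =>
    rintro (_ | m) x a b
    · omega
    rcases x with _ | ⟨i, c⟩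
    · rfl
    exact congrArg (fun j => inr (j, (ρ i).1 c)) (phi_congr fun x d =>
      ih m x (d.trans_le (Nat.le_of_lt_succ a)) (d.trans_le (Nat.le_of_lt_succ b)))

theorem ex_g (ρ : I → b.P) : ∃ g : G b, ∀ i c, g.1.1 (inr (i, c)) = inr (Φ g.1 i, (ρ i).1 c) := by
  let g0 : Perm (A b) := ⟨fun x => (gs ρ (lev x + 1)).1 x, fun x => (gs ρ (lev x + 1)).1⁻¹ x,
    fun x => by simp [gs_lev], fun x => by
      have : lev ((gs ρ (lev x + 1)).1⁻¹ x) = lev x := by rw [← gs_lev ρ (lev x + 1)]; simp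
      simp only [this]; simp⟩
  have hg0 : g0 ∈ W b := ⟨fun _ => rfl, fun i => ⟨Φ (gs ρ i.1) i, (ρ i).1, (ρ i).2, fun _ => rfl⟩⟩
  let g : W b := ⟨g0, hg0⟩
  have : ∀ i c, g.1 (inr (i, c)) = inr (Φ g i, (ρ i).1 c) := fun i c =>
    congrArg (fun j => inr (j, (ρ i).1 c)) (phi_congr fun x d => gs_st ρ _ _ x d (Nat.lt_succ_self _))
  exact ⟨⟨g, fun i => ⟨(ρ i).1, (ρ i).2, this i⟩⟩, this⟩

def Cl (b : Blk k) (J : Set I) : Prop := ∀ σ : S b, ι σ ∈ J → ∀ i ∈ mv σ.1, i ∈ J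

theorem cl_fix {J : Set I} (hJ : Cl b J) {g : W b} (h : ∀ i ∈ J, ∀ c, g.1 (inr (i, c)) = inr (Φ g i, c))
    (n : ℕ) : ∀ i, i.1 = n → (∀ σ : S b, ι σ = i → ∀ j ∈ mv σ.1, j ∈ J) → Φ g i = i := by
  induction n using Nat.strong_induction_on with
  | _ n ih =>
    rintro i rfl a
    by_cases c : i ∈ range (ι (b := b))
    · obtain ⟨σ, rfl⟩ := c
      rw [phi_i, fix_conj]
      intro j d c
      have := a σ rfl j d
      rw [h j this, ih j.1 (lev_lt d) j rfl fun τ e => hJ τ (e ▸ this)]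
    · exact phi_n g c

theorem ex_cl (n : ℕ) : ∀ i : I, i.1 = n → ∃ J, J.Finite ∧ Cl b J ∧ i ∈ J := by
  induction n using Nat.strong_induction_on with
  | _ n ih =>
    rintro i rfl
    by_cases c : i ∈ range (ι (b := b))
    · obtain ⟨σ, rfl⟩ := c
      choose! J h1 h2 h3 using fun (j : I) (h : j ∈ mv σ.1) => ih j.1 (lev_lt h) j rfl
      refine ⟨insert (ι σ) (⋃ j ∈ mv σ.1, J j), (σ.2.biUnion h1).insert _,
        fun τ d j e => Or.inr ?_, Or.inl rfl⟩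
      rcases d with d | d
      · obtain rfl := ι.injective d
        exact mem_biUnion e (h3 _ e)
      · obtain ⟨p, d, f⟩ := mem_iUnion₂.1 d
        exact mem_biUnion d (h2 p d τ f j e)
    · exact ⟨{i}, finite_singleton i, fun σ a => absurd ⟨σ, a⟩ c, rfl⟩

/-- outside a finite set of blocks, every permutation in `P` of a block extends to an element of
the stabiliser of a given finite set -/
theorem ex_mv {F : Set (A b)} (hF : F.Finite) : ∃ K : Set I, K.Finite ∧ ∀ i ∉ K, ∀ ρ ∈ b.P,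
    ∃ g : G b, (∀ y ∈ F, g.1.1 y = y) ∧ (∀ c, g.1.1 (inr (i, c)) = inr (i, ρ c)) ∧
      ∀ j c, j ≠ i → j ∈ K ∨ j.1 ≤ i.1 → g.1.1 (inr (j, c)) = inr (j, c) := by
  classical
  choose J a c d using fun p : I × b.B => ex_cl (b := b) _ p.1 rfl
  let K := ⋃ p ∈ inr ⁻¹' F, J p
  refine ⟨K, (hF.preimage inr_injective.injOn).biUnion fun p _ => a p, fun i hi ρ hρ => ?_⟩
  obtain ⟨g, hg⟩ := ex_g (Function.update (1 : I → b.P) i ⟨ρ, hρ⟩)
  have k2 : Cl b {j | j ≠ i ∧ (j ∈ K ∨ j.1 ≤ i.1)} := fun τ d j f => by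
    rcases d.2 with k | k
    · obtain ⟨p, k, l⟩ := mem_iUnion₂.1 k
      have : j ∈ K := mem_biUnion k (c p τ l j f)
      exact ⟨fun m => hi (m ▸ this), Or.inl this⟩
    · have : j.1 < i.1 := (lev_lt f).trans_le k
      exact ⟨fun m => absurd this (by simp [m]), Or.inr this.le⟩
  have k3 := cl_fix k2 (g := g.1) fun j d e => by simp [hg, Function.update_of_ne d.1]
  have k4 : ∀ j c, j ≠ i → j ∈ K ∨ j.1 ≤ i.1 → g.1.1 (inr (j, c)) = inr (j, c) := fun j c d e => by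
    simp [hg, Function.update_of_ne d, k3 _ j rfl fun τ f => k2 τ (f ▸ ⟨d, e⟩)]
  refine ⟨g, ?_, fun c => ?_, k4⟩
  · rintro (n | ⟨j, e⟩) f
    · exact g.1.2.1 n
    · have : j ∈ K := mem_biUnion (x := (j, e)) f (d _)
      exact k4 j e (fun m => hi (m ▸ this)) (Or.inl this)
  · rw [hg, Function.update_self, k3 _ i rfl fun τ f j d => ?_]
    have : j.1 < i.1 := f ▸ lev_lt d
    exact ⟨fun m => absurd this (by simp [m]), Or.inr this.le⟩

/-- a permutation commuting with the stabiliser of a finite set moves points of finitely many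
blocks only -/
theorem fin_mv {σ : Perm (A b)} {F : Set (A b)} (hF : F.Finite)
    (h : ∀ g : G b, (∀ y ∈ F, g.1.1 y = y) → ∀ x, g.1.1 (σ x) = σ (g.1.1 x)) : (mv σ).Finite := by
  obtain ⟨K, k1, key⟩ := ex_mv hF
  refine k1.subset ?_
  rintro i ⟨c, e⟩
  by_contra hi
  have k5 : (∀ g : G b, (∀ j c, j ≠ i → j ∈ K ∨ j.1 ≤ i.1 → g.1.1 (inr (j, c)) = inr (j, c)) →
      g.1.1 (σ (inr (i, c))) = σ (inr (i, c))) → False := fun k => by
    obtain ⟨ρ, r0, r⟩ := b.h1 c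
    obtain ⟨g, g1, g2, g3⟩ := key i hi ρ r0
    have := σ.injective ((h g g1 _).symm.trans (k g g3))
    rw [g2] at this
    exact r (Prod.ext_iff.1 (inr_injective this)).2
  rcases f : σ (inr (i, c)) with n | ⟨j, c'⟩
  · exact k5 fun g _ => f ▸ g.1.2.1 n
  by_cases k : j = i
  · subst k
    obtain ⟨ρ, r0, r⟩ := b.h2 c c' fun m => e (m ▸ f)
    obtain ⟨g, g1, g2, -⟩ := key j hi ρ r0
    have := h g g1 (inr (j, c))
    rw [f, g2, g2] at this
    rcases r with ⟨r1, r2⟩ | ⟨r1, r2⟩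
    · rw [r1, f] at this
      exact r2 (Prod.ext_iff.1 (inr_injective this)).2
    · rw [r2, ← f] at this
      exact r1 (Prod.ext_iff.1 (inr_injective (σ.injective this))).2.symm
  by_cases l : j ∈ K ∨ j.1 ≤ i.1
  · exact k5 fun g m => f ▸ m j c' k l
  · obtain ⟨ρ, r0, r⟩ := b.h1 c'
    obtain ⟨g, g1, g2, g3⟩ := key j (fun m => l (Or.inl m)) ρ r0
    have := h g g1 (inr (i, c))
    rw [f, g2, g3 i c (Ne.symm k) (Or.inr (le_of_not_ge fun m => l (Or.inr m))), f] at this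
    exact r (Prod.ext_iff.1 (inr_injective this)).2

/-- the permutations in `S` are fixed by the stabiliser of a finite set -/
theorem s_fix (σ : S b) : ∃ F : Set (A b), F.Finite ∧ ∀ g : G b, (∀ y ∈ F, g.1.1 y = y) →
    g • σ = σ := by
  obtain ⟨D, hD, h⟩ := b.h3
  refine ⟨(fun p : I × b.B => inr p) '' (mv σ.1 ×ˢ insert b.c0 D),
    (σ.2.prod (hD.insert _)).image _, fun g hg => fix_conj (g := g.1) fun i hi c => ?_⟩
  obtain ⟨ρ, h1, h2⟩ := g.2 i
  have h3 : ∀ d ∈ insert b.c0 D, Φ g.1 i = i ∧ ρ d = d := fun d hd => by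
    have := hg _ ⟨(i, d), ⟨hi, hd⟩, rfl⟩
    rw [h2] at this
    exact Prod.ext_iff.1 (inr_injective this)
  rw [h2, (h3 _ (mem_insert _ _)).1, h ρ h1 fun d hd => (h3 d (mem_insert_of_mem _ hd)).2]
  rfl

end Pool.Agent.KS6_45.FK
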