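import Pool.Agent.KS6_45.FK.Fac
import Pool.Agent.KS6_45.FK.Defs
import Pool.Graph.R_pool_sql_team_ae5b0c61.H40.Js6

set_option autoImplicit false

/-!
# The permutations and the `k`-element subsets of the atoms

(The transfer to a model of ZF is that of the library module `Results/MP_7d095a_lc/Model`.)
-/

namespace Pool.Agent.KS6_45.FK

open Pool.Agent.H40.Bspt Pool.Agent.H40.Jz Pool.Agent.H40.Js Set Filter Sum Equiv

/-- the equivariant theorem of Cantor, Schröder and Bernstein -/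
theorem esb {Λ X Y : Type} [Group Λ] [MulAction Λ X] [MulAction Λ Y] {f : X → Y} {g : Y → X}
    (hf : Function.Injective f) (hg : Function.Injective g) (ef : ∀ (γ : Λ) x, f (γ • x) = γ • f x)
    (eg : ∀ (γ : Λ) y, g (γ • y) = γ • g y) :
    ∃ h : X → Y, Function.Bijective h ∧ ∀ (γ : Λ) x, h (γ • x) = γ • h x := by
  let C : X → Prop := fun x => ∀ s : Set X, (range g)ᶜ ⊆ s → (∀ z ∈ s, g (f z) ∈ s) → x ∈ s
  have c1 : ∀ x, x ∉ range g → C x := fun x a s b _ => b a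
  have c2 : ∀ x, C x → C (g (f x)) := fun x a s b c => c x (a s b c)
  have c3 : ∀ y, C (g y) → ∃ x, C x ∧ y = f x := fun y a => (a {x | x ∉ range g ∨ ∃ z, C z ∧
    x = g (f z)} (fun _ b => Or.inl b) fun z b => Or.inr ⟨z, b.elim (c1 z) fun ⟨w, c, d⟩ =>
      d ▸ c2 w c, rfl⟩).elim (absurd ⟨y, rfl⟩) fun ⟨z, b, c⟩ => ⟨z, b, hg c⟩
  have c4 : ∀ (γ : Λ) x, C x → C (γ • x) := fun γ x a => a {x | C (γ • x)}
    (fun x b => c1 _ fun ⟨y, c⟩ => b ⟨γ⁻¹ • y, by rw [eg, c, inv_smul_smul]⟩) fun z b => by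
      have := c2 _ b
      rwa [ef, eg] at this
  let H : X → Y → Prop := fun x y => C x ∧ y = f x ∨ ¬ C x ∧ g y = x
  have h1 : ∀ x y y', H x y → H x y' → y = y' := by
    rintro x y y' (a | a) (b | b)
    exacts [a.2.trans b.2.symm, absurd a.1 b.1, absurd b.1 a.1, hg (a.2.trans b.2.symm)]
  choose h hh using fun x => show ∃ y, H x y from (em (C x)).elim (fun a => ⟨_, Or.inl ⟨a, rfl⟩⟩)
    fun a => (not_not.1 (mt (c1 x) a)).imp fun y b => Or.inr ⟨a, b⟩
  refine ⟨h, ⟨fun x x' e => ?_, fun y => ?_⟩, fun γ x => h1 _ _ _ (hh _) ((hh x).imp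
    (fun a => ⟨c4 γ x a.1, by rw [ef, a.2]⟩) fun a => ⟨fun b => a.1 (by simpa using c4 γ⁻¹ _ b),
      by rw [eg, a.2]⟩)⟩
  · rcases hh x with a | a <;> rcases hh x' with b | b
    · exact hf (a.2.symm.trans (e.trans b.2))
    · exact absurd (by rw [← b.2, ← e, a.2]; exact c2 x a.1) b.1
    · exact absurd (by rw [← a.2, e, b.2]; exact c2 x' b.1) a.1
    · rw [← a.2, e, b.2]
  · by_cases a : C (g y)
    · obtain ⟨x, b, c⟩ := c3 y a
      exact ⟨x, h1 _ _ _ (hh x) (Or.inl ⟨b, c⟩)⟩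
    · exact ⟨_, h1 _ _ _ (hh _) (Or.inr ⟨a, rfl⟩)⟩

variable {k : ℕ} {b : Blk k}

noncomputable instance : NF (G b) := suppNF (G b) (univ : Set (A b)) fun _ _ _ => trivial

theorem ev {p : G b → Prop} : (∀ᶠ g in NF.F, p g) ↔
    ∃ F : Set (A b), F.Finite ∧ F ⊆ univ ∧ ∀ g : G b, (∀ y ∈ F, g • y = y) → p g := supp_iff

instance : Fx (G b) (A b) := ⟨fun a => ev.2 ⟨{a}, finite_singleton a, subset_univ _, fun _ h => h a rfl⟩⟩

theorem sm_im (g : G b) (X : PS (G b) (A b)) : (g • X).1 = g.1.1 '' X.1 := by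
  ext x
  exact ⟨fun h => ⟨_, h, smul_inv_smul g x⟩, by
    rintro ⟨y, h, rfl⟩
    exact smul_mem.2 h⟩

variable (b) in
/-- the sets of `n` atoms -/
def Th (n : ℕ) : SubMulAction (G b) (PS (G b) (A b)) where
  carrier := {X | X.1.encard = n}
  smul_mem' g X := fun h => by
    show (g • X).1.encard = n
    rw [sm_im, g.1.1.injective.encard_image]
    exact h

theorem th_fin {n : ℕ} (X : Th b n) : X.1.1.Finite := by
  have : X.1.1.encard = n := X.2
  exact Set.encard_lt_top_iff.1 (this ▸ by simp)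

def mkTh {n : ℕ} (X : Set (A b)) (h : X.encard = n) : Th b n :=
  ⟨⟨X, sym_fin (t := .a) (Set.encard_lt_top_iff.1 (h ▸ by simp))⟩, h⟩

/-- the component of a set of atoms in a block -/
def cp (X : Set (A b)) (i : I) : Set b.B := {c | inr (i, c) ∈ X}

theorem cp_sm {g : G b} {i : I} {ρ : Perm b.B} (h : ∀ c, g.1.1 (inr (i, c)) = inr (Φ g.1 i, ρ c))
    (X : Set (A b)) : cp (g.1.1 '' X) (Φ g.1 i) = ρ '' cp X i := by
  ext c
  obtain ⟨c, rfl⟩ := ρ.surjective c
  rw [ρ.injective.mem_set_image]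
  show (inr (Φ g.1 i, ρ c) : A b) ∈ g.1.1 '' X ↔ (inr (i, c) : A b) ∈ X
  rw [← h, g.1.1.injective.mem_set_image]

theorem cp_card (X : Set (A b)) (i : I) : (cp X i).encard ≤ X.encard := by
  have : Function.Injective fun c : b.B => (inr (i, c) : A b) := fun c d e =>
    (Prod.ext_iff.1 (inr_injective e)).2
  rw [← this.encard_image]
  refine encard_le_encard ?_
  rintro _ ⟨c, h, rfl⟩
  exact h

/-- the permutation coding a set of atoms -/
noncomputable def sX (X : Set (A b)) : Perm (A b) :=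
  Equiv.sumCongr 1 (Equiv.prodShear 1 fun i => b.π (cp X i))

theorem sX_inr (X : Set (A b)) (i : I) (c : b.B) : sX X (inr (i, c)) = inr (i, b.π (cp X i) c) := rfl

noncomputable def sc {n : ℕ} (X : Th b n) : S b := ⟨sX X.1.1, by
  refine ((th_fin X).image (Sum.elim (fun _ => (0, 0)) fun p => p.1)).subset fun i hi => ?_
  obtain ⟨c, hc⟩ := hi
  by_contra h
  have : cp X.1.1 i = ∅ := eq_empty_of_forall_notMem fun c hc => h ⟨_, hc, rfl⟩
  exact hc (by rw [sX_inr, this, b.π0]; rfl)⟩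

theorem sc_sm {n : ℕ} (g : G b) (X : Th b n) : sc (g • X) = g • sc X := by
  refine Subtype.ext (eq_mul_inv_iff_mul_eq.2 (Equiv.ext ?_))
  rintro (m | ⟨i, c⟩)
  · show sX _ (g.1.1 (inl m)) = g.1.1 (inl m)
    rw [g.1.2.1 m]
    rfl
  · obtain ⟨ρ, h1, h2⟩ := g.2 i
    show sX (g • X.1).1 (g.1.1 (inr (i, c))) = g.1.1 (sX X.1.1 (inr (i, c)))
    have hf : (cp X.1.1 i).Finite := Set.encard_lt_top_iff.1
      ((cp_card X.1.1 i).trans_lt (Set.encard_lt_top_iff.2 (th_fin X)))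
    rw [h2, sX_inr, sX_inr, h2, sm_im, cp_sm h2, b.πe ρ h1 _ hf]
    simp

/-- the `k` special points of a block -/
def TT (i : I) : Th b k := mkTh ((fun c => inr (i, c)) '' b.K) (by
  rw [Function.Injective.encard_image (fun c d e => (Prod.ext_iff.1 (inr_injective e)).2)]
  exact b.Kcard)

theorem tt_val (i : I) : (TT (b := b) i).1.1 = (fun c => inr (i, c)) '' b.K := rfl

theorem tt_sm (g : G b) (i : I) : g • TT (b := b) i = TT (Φ g.1 i) := by
  obtain ⟨ρ, h1, h2⟩ := g.2 i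
  refine Subtype.ext (Subtype.ext ?_)
  show (g • (TT i).1).1 = _
  rw [sm_im, tt_val, tt_val, image_image]
  simp only [h2]
  rw [← image_image (fun c => (inr (Φ g.1 i, c) : A b)) ρ, b.Kinv ρ h1]

theorem tt_inj (hk : 1 ≤ k) : Function.Injective (TT (b := b)) := fun i j e => by
  have h : b.K.Nonempty := by
    rw [← encard_ne_zero, b.Kcard]
    exact_mod_cast (by omega : k ≠ 0)
  obtain ⟨c, hc⟩ := h
  have h1 : (inr (i, c) : A b) ∈ (TT (b := b) j).1.1 := e ▸ ⟨c, hc, rfl⟩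
  obtain ⟨d, -, h2⟩ := h1
  exact (Prod.ext_iff.1 (inr_injective h2)).1.symm

theorem cp_ne {X : Th b k} (h : ∀ i, X ≠ TT i) (i : I) : cp X.1.1 i ≠ b.K := by
  intro e
  refine h i (Subtype.ext (Subtype.ext ?_))
  refine ((th_fin (TT (b := b) i)).eq_of_subset_of_encard_le ?_ ?_).symm
  · rintro _ ⟨c, hc, rfl⟩
    exact e.ge hc
  · exact (X.2.trans (TT (b := b) i).2.symm : X.1.1.encard = _).le

abbrev C : Type := Unit ⊕ I ⊕ Set ℕ

def s1 : S b := ⟨1, finite_empty.subset fun _ ⟨_, h⟩ => h rfl⟩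

theorem s1_sm (g : G b) : g • (s1 : S b) = s1 := Subtype.ext (by
  show g.1.1 * 1 * g.1.1⁻¹ = 1
  simp)

open Classical in
noncomputable def code (X : Th b k) : S b × C :=
  if h : ∃ i, X = TT i then
    if h' : h.choose ∈ range (ι (b := b)) then (h'.choose, inl ()) else (s1, inr (inl h.choose))
  else (sc X, inr (inr (inl ⁻¹' X.1.1)))

theorem code_a (hk : 1 ≤ k) (σ : S b) : code (TT (b := b) (ι σ)) = (σ, inl ()) := by
  have h : ∃ i, TT (b := b) (ι σ) = TT i := ⟨_, rfl⟩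
  have e : h.choose = ι σ := (tt_inj hk h.choose_spec).symm
  have h' : h.choose ∈ range (ι (b := b)) := ⟨σ, e.symm⟩
  rw [code, dif_pos h, dif_pos h']
  exact Prod.ext (ι.injective (h'.choose_spec.trans e)) rfl

theorem code_b (hk : 1 ≤ k) {i : I} (hi : i ∉ range (ι (b := b))) :
    code (TT (b := b) i) = (s1, inr (inl i)) := by
  have h : ∃ j, TT (b := b) i = TT j := ⟨_, rfl⟩
  have e : h.choose = i := (tt_inj hk h.choose_spec).symm
  rw [code, dif_pos h, dif_neg (e.symm ▸ hi), e]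

theorem code_c {X : Th b k} (h : ∀ i, X ≠ TT i) : code X = (sc X, inr (inr (inl ⁻¹' X.1.1))) := by
  rw [code, dif_neg (not_exists.2 h)]

theorem code_cases (X : Th b k) : (∃ σ : S b, X = TT (ι σ)) ∨
    (∃ i ∉ range (ι (b := b)), X = TT i) ∨ ∀ i, X ≠ TT i := by
  by_cases h : ∃ i, X = TT i
  · obtain ⟨i, rfl⟩ := h
    by_cases h' : i ∈ range (ι (b := b))
    · obtain ⟨σ, rfl⟩ := h'
      exact Or.inl ⟨σ, rfl⟩
    · exact Or.inr (Or.inl ⟨i, h', rfl⟩)
  · exact Or.inr (Or.inr (not_exists.1 h))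

theorem base_sm (g : G b) (X : Set (A b)) : inl ⁻¹' (g.1.1 '' X) = inl ⁻¹' X := by
  ext n
  have := g.1.1.injective.mem_set_image (s := X) (a := inl n)
  rwa [g.1.2.1 n] at this

theorem code_sm (hk : 1 ≤ k) (g : G b) (X : Th b k) :
    code (g • X) = (g • (code X).1, (code X).2) := by
  rcases code_cases X with ⟨σ, rfl⟩ | ⟨i, hi, rfl⟩ | h
  · rw [tt_sm, phi_i, code_a hk, code_a hk]
    rfl
  · rw [tt_sm, phi_n _ hi, code_b hk hi, s1_sm]
  · have h' : ∀ i, g • X ≠ TT i := fun i e => h (Φ g⁻¹.1 i) (by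
      rw [← tt_sm, ← e, inv_smul_smul])
    rw [code_c h, code_c h', sc_sm]
    refine Prod.ext rfl (congrArg (inr ∘ inr) ?_)
    show inl ⁻¹' (g • X.1).1 = _
    rw [sm_im, base_sm]

theorem code_inj (hk : 1 ≤ k) : Function.Injective (code (b := b)) := by
  intro X Y e
  rcases code_cases X with ⟨σ, rfl⟩ | ⟨i, hi, rfl⟩ | h <;>
    rcases code_cases Y with ⟨τ, rfl⟩ | ⟨j, hj, rfl⟩ | h'
  · rw [code_a hk, code_a hk] at e
    simp only [Prod.mk.injEq, and_true] at e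
    rw [e]
  · rw [code_a hk, code_b hk hj] at e
    simp at e
  · rw [code_a hk, code_c h'] at e
    simp at e
  · rw [code_a hk, code_b hk hi] at e
    simp at e
  · rw [code_b hk hi, code_b hk hj] at e
    simp only [Prod.mk.injEq, inr.injEq, inl.injEq, true_and] at e
    rw [e]
  · rw [code_b hk hi, code_c h'] at e
    simp at e
  · rw [code_a hk, code_c h] at e
    simp at e
  · rw [code_b hk hj, code_c h] at e
    simp at e
  · rw [code_c h, code_c h'] at e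
    obtain ⟨e1, e2⟩ := Prod.ext_iff.1 e
    have e2 : inl ⁻¹' X.1.1 = inl ⁻¹' Y.1.1 := inr_injective (inr_injective e2)
    have hX : X.1.1.encard = k := X.2
    have hY : Y.1.1.encard = k := Y.2
    have e3 : ∀ i, cp X.1.1 i = cp Y.1.1 i := fun i => by
      refine b.πi _ _ ((cp_card _ i).trans hX.le) ((cp_card _ i).trans hY.le) (cp_ne h i)
        (cp_ne h' i) (Equiv.ext fun c => ?_)
      have := congrFun (congrArg (fun σ : S b => (σ.1 : A b → A b)) e1) (inr (i, c))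
      exact (Prod.ext_iff.1 (inr_injective this)).2
    refine Subtype.ext (Subtype.ext ?_)
    ext (n | ⟨i, c⟩)
    · exact Set.ext_iff.1 e2 n
    · exact Set.ext_iff.1 (e3 i) c

def ee : A b ↪ A b := ⟨Sum.map (2 * ·) id, Sum.map_injective.2
  ⟨mul_right_injective₀ two_ne_zero, Function.injective_id⟩⟩

def oo : ℕ ↪ A b := ⟨fun n => inl (2 * n + 1), fun _ _ e => by have := inl_injective e; omega⟩

theorem eo (x : A b) (n : ℕ) : ee x ≠ oo n := by
  rcases x with m | p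
  · intro e
    have : 2 * m = 2 * n + 1 := inl_injective (e : (inl (2 * m) : A b) = inl (2 * n + 1))
    omega
  · intro e
    exact Sum.inr_ne_inl (e : (inr p : A b) = inl (2 * n + 1))

theorem ex_codeC : Nonempty (C ↪ Perm ℕ) := (Cardinal.le_def _ _).1 (by
  rw [Cardinal.mk_perm_eq_two_power]
  simp [Cardinal.mk_real, add_comm, Cardinal.add_one_eq Cardinal.aleph0_le_continuum])

theorem g_inr (g : W b) (p : I × b.B) : ∃ q, g.1 (inr p) = inr q := by
  obtain ⟨ρ, -, h⟩ := bl_spec g p.1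
  exact ⟨_, h p.2⟩

theorem g_ee (g : W b) (x : A b) : g.1 (ee x) = ee (g.1 x) := by
  rcases x with n | p
  · exact (g.2.1 _).trans (congrArg ee (g.2.1 n).symm)
  · obtain ⟨q, e⟩ := g_inr g p
    show g.1 (inr p) = ee (g.1 (inr p))
    rw [e]
    rfl

theorem ex_th : ∃ Θ : S b → C → S b, (∀ τ r τ' r', Θ τ r = Θ τ' r' → τ = τ' ∧ r = r') ∧
    ∀ (g : G b) τ r, Θ (g • τ) r = g • Θ τ r := by
  obtain ⟨κ⟩ := ex_codeC
  let θ : S b → C → Perm (A b) := fun τ r => τ.1.viaEmbedding ee * (κ r).viaEmbedding oo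
  have k1 : ∀ τ r x, θ τ r (ee x) = ee (τ.1 x) := fun τ r x => by
    simp only [θ, Perm.mul_apply]
    rw [Perm.viaEmbedding_apply_of_notMem _ oo _ fun ⟨n, e⟩ => eo x n e.symm, Perm.viaEmbedding_apply]
  have k2 : ∀ τ r n, θ τ r (oo n) = oo (κ r n) := fun τ r n => by
    simp only [θ, Perm.mul_apply]
    rw [Perm.viaEmbedding_apply, Perm.viaEmbedding_apply_of_notMem _ ee _ fun ⟨x, e⟩ => eo x _ e]
  refine ⟨fun τ r => ⟨θ τ r, τ.2.subset ?_⟩, fun τ r τ' r' e => ?_, fun g τ r =>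
    Subtype.ext (eq_mul_inv_iff_mul_eq.2 (Equiv.ext fun x => ?_))⟩
  · rintro i ⟨c, hc⟩
    exact ⟨c, fun a => hc ((k1 τ r (inr (i, c))).trans (congrArg ee a))⟩
  · have e : θ τ r = θ τ' r' := congrArg Subtype.val e
    exact ⟨Subtype.ext (Equiv.ext fun x => ee.injective (by rw [← k1 τ r, e, k1])),
      κ.injective (Equiv.ext fun x => oo.injective (by rw [← k2 τ r, e, k2]))⟩
  · show θ (g • τ) r (g.1.1 x) = g.1.1 (θ τ r x)
    obtain ⟨y, rfl⟩ | ⟨n, rfl⟩ : x ∈ range ee ∨ x ∈ range oo := by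
      rcases x with n | p
      · exact (Nat.even_or_odd' n).elim fun m e => e.imp (fun e => ⟨inl m, congrArg inl e.symm⟩)
          fun e => ⟨m, congrArg inl e.symm⟩
      · exact Or.inl ⟨inr p, rfl⟩
    · rw [g_ee, k1, k1, g_ee]
      exact congrArg ee (congrArg g.1.1 (congrArg τ.1 (g.1.1.symm_apply_apply y)))
    · rw [show g.1.1 (oo n) = oo n from g.1.2.1 _, k2, k2]
      exact (g.1.2.1 _).symm

theorem ex_bij (hk : 1 ≤ k) : ∃ h : S b → Th b k, Function.Bijective h ∧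
    ∀ (g : G b) x, h (g • x) = g • h x := by
  obtain ⟨Θ, h1, h2⟩ := ex_th (b := b)
  refine esb (f := fun σ => TT (ι σ)) (g := fun X => Θ (code X).1 (code X).2)
    ((tt_inj hk).comp ι.injective) (fun X Y e => code_inj hk (Prod.ext (h1 _ _ _ _ e).1
      (h1 _ _ _ _ e).2)) (fun g σ => by rw [tt_sm, phi_i]; rfl) fun g X => ?_
  rw [code_sm hk, h2]

end Pool.Agent.KS6_45.FK
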