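import Pool.Agent.KS6_45.FK.Mod

set_option autoImplicit false

/-! # The transfer to a model of ZF -/

namespace Pool.Agent.KS6_45.FK

open Pool.Agent.H40.Bspt Pool.Agent.H40.Jz Pool.Agent.H40.Js Set Filter Sum Equiv

variable {k : ℕ} {b : Blk k}

theorem iap {X : Type} (g : Perm X) (x : X) : g⁻¹ (g x) = x := g.symm_apply_apply x

theorem sm_ap (g : G b) (σ : S b) (x : A b) : (g • σ).1 (g.1.1 x) = g.1.1 (σ.1 x) := by
  show (g.1.1 * σ.1 * g.1.1⁻¹) (g.1.1 x) = _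
  simp only [Perm.mul_apply, iap]

theorem sm_ap' (g : G b) (σ : S b) (x y : A b) :
    σ.1 (g.1.1⁻¹ x) = g.1.1⁻¹ y ↔ (g • σ).1 x = y := by
  obtain ⟨x, rfl⟩ := g.1.1.surjective x
  obtain ⟨y, rfl⟩ := g.1.1.surjective y
  rw [sm_ap, iap, iap]
  exact g.1.1.injective.eq_iff.symm

/-- the graph of a permutation -/
noncomputable def gr (σ : S b) : PS (G b) (El (G b) (A b) (.p .a .a)) :=
  ps {p | σ.1 p.1 = p.2} (sym_of (ev.2 (by
    obtain ⟨F, hF, h⟩ := s_fix σ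
    refine ⟨F, hF, subset_univ _, fun g hg p (e : σ.1 p.1 = p.2) => ?_⟩
    have h2 := sm_ap g σ p.1
    rw [h g hg] at h2
    exact h2.trans (congrArg g.1.1 e))))

theorem gr_sm (g : G b) (σ : S b) : g • gr σ = gr (g • σ) :=
  Subtype.ext (Set.ext fun p => sm_ap' g σ p.1 p.2)

theorem gr_inj : Function.Injective (gr (b := b)) := fun σ _ e => Subtype.ext (Equiv.ext fun x =>
  ((Set.ext_iff.1 (congrArg Subtype.val e) (x, σ.1 x)).1 rfl).symm)

/-- a permutation of the natural numbers as a permutation of the atoms -/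
def bs (κ : Perm ℕ) : S b := ⟨Equiv.sumCongr κ 1, finite_empty.subset fun _ ⟨_, h⟩ => h rfl⟩

theorem bs_inj : Function.Injective (bs (b := b)) := fun _ _ e => Equiv.ext fun n =>
  inl_injective (congrFun (congrArg (fun σ : S b => (σ.1 : A b → A b)) e) (inl n))

theorem bs_sm (g : G b) (κ : Perm ℕ) : g • bs (b := b) κ = bs κ :=
  fix_conj (g := g.1) fun _ ⟨_, h⟩ => absurd rfl h

/-- a set of less than `k` atoms fixed by the stabiliser of a finite set lives in finitely many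
blocks -/
theorem inv_sub {F : Set (A b)} (hF : F.Finite) : ∃ Z : Set (A b), Z.Countable ∧
    ∀ X : PS (G b) (A b), X.1.encard < k → (∀ g : G b, (∀ y ∈ F, g • y = y) → g • X = X) →
      X.1 ⊆ Z := by
  have := b.cnt
  obtain ⟨K, hK, key⟩ := ex_mv hF
  refine ⟨range inl ∪ ⋃ i ∈ K, range fun c : b.B => inr (i, c), (countable_range _).union
    (hK.countable.biUnion fun i _ => countable_range _), fun X h1 h2 => ?_⟩
  have h3 : ∀ i ∉ K, cp X.1 i = ∅ := fun i hi => by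
    have hc := cp_card X.1 i
    refine b.h4 _ (Set.encard_lt_top_iff.1 ((hc.trans_lt h1).trans (by simp))) (fun ρ hρ => ?_)
      (hc.trans_lt h1)
    obtain ⟨g, g1, g2, -⟩ := key i hi ρ hρ
    have h5 : g • X = X := h2 g g1
    have h6 : Φ g.1 i = i := by
      obtain ⟨ρ', -, h⟩ := g.2 i
      have := (h b.c0).symm.trans (g2 b.c0)
      exact (Prod.ext_iff.1 (inr_injective this)).1
    have h7 := cp_sm (b := b) (g := g) (i := i) (ρ := ρ) (fun c => by rw [g2, h6]) X.1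
    rw [← sm_im, h5, h6] at h7
    exact h7.symm
  rintro (n | ⟨i, c⟩) h
  · exact Or.inl ⟨n, rfl⟩
  · by_cases hi : i ∈ K
    · exact Or.inr (mem_biUnion hi ⟨c, rfl⟩)
    · exact absurd (h3 i hi ▸ (h : c ∈ cp X.1 i)) (notMem_empty c)

/-- adding the natural numbers `1, 3, ..., 2 m - 1` to a set, whose natural numbers are doubled -/
def pad {j : ℕ} (m : ℕ) (X : Th b j) : Th b (j + m) :=
  mkTh (ee '' X.1.1 ∪ (oo '' {n | n < m})) (by
    have h : Disjoint (ee '' X.1.1) (oo '' {n | n < m}) := by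
      rw [Set.disjoint_left]
      rintro _ ⟨x, -, rfl⟩ ⟨n, -, e⟩
      exact eo x n e.symm
    have h1 : X.1.1.encard = j := X.2
    have h2 : ({n | n < m} : Set ℕ).encard = m := by
      have : ({n | n < m} : Set ℕ) = ↑(Finset.range m) := by ext; simp
      rw [this, Set.encard_coe_eq_coe_finsetCard, Finset.card_range]
    rw [encard_union_eq h, ee.injective.encard_image, oo.injective.encard_image, h1, h2]
    push_cast
    rfl)

theorem pad_val {j : ℕ} (m : ℕ) (X : Th b j) :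
    (pad m X).1.1 = ee '' X.1.1 ∪ (oo '' {n | n < m}) := rfl

theorem pad_inj {j : ℕ} (m : ℕ) : Function.Injective (pad (b := b) (j := j) m) := by
  have key : ∀ X Y : Th b j, pad m X = pad m Y → X.1.1 ⊆ Y.1.1 := fun X Y e x hx => by
    have : ee x ∈ (pad m Y).1.1 := e ▸ Or.inl ⟨x, hx, rfl⟩
    rcases this with ⟨y, hy, e⟩ | ⟨n, -, e⟩
    · rwa [← ee.injective e]
    · exact absurd e.symm (eo x n)
  exact fun X Y e => Subtype.ext (Subtype.ext ((key X Y e).antisymm (key Y X e.symm)))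

theorem pad_sm {j : ℕ} (m : ℕ) (g : G b) (X : Th b j) : pad m (g • X) = g • pad m X := by
  refine Subtype.ext (Subtype.ext ?_)
  show _ = (g • (pad m X).1).1
  rw [sm_im, pad_val, pad_val, image_union]
  show ee '' (g • X.1).1 ∪ _ = _
  rw [sm_im, image_image, image_image, image_image]
  simp only [g_ee]
  congr 1
  refine image_congr fun n _ => ?_
  exact (g.1.2.1 _).symm

namespace Tr

variable (J : JS (G b) (A b))

theorem sub_iff {n : ℕ} {X : J.M} : IsSubN J.E n (J.sA unA) X ↔ ∃ u : Th b n, X = J.sA u.1 := by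
  constructor
  · rintro ⟨f, h1, h2, h3⟩
    obtain ⟨u, -, rfl⟩ := J.subA (s := unA) (a := X) fun z e => by
      obtain ⟨i, rfl⟩ := (h3 z).1 e
      exact h2 i
    choose a ha ha' using fun i => J.elA (h2 i)
    have e : u.1 = range a := Set.ext fun x => by
      rw [← J.memA, h3]
      exact exists_congr fun i => by rw [ha', J.nA_inj.eq_iff, eq_comm]
    have ia : Function.Injective a := fun i j e => h1 (by rw [ha', ha', e])
    refine ⟨⟨u, ?_⟩, rfl⟩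
    show u.1.encard = n
    rw [e, ← image_univ, ia.encard_image, Set.encard_univ]
    simp
  · rintro ⟨u, rfl⟩
    have hf := th_fin u
    have hu : u.1.1.encard = n := u.2
    have : Finite u.1.1 := hf
    have hc : Nat.card u.1.1 = n := by
      rw [Nat.card_coe_set_eq, Set.ncard, hu]
      rfl
    let e := (Finite.equivFinOfCardEq hc).symm
    refine ⟨fun i => J.nA (e i).1, fun i j h => e.injective (Subtype.ext (J.nA_inj h)),
      fun i => J.memA.2 trivial, fun z => ⟨fun h => ?_, ?_⟩⟩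
    · obtain ⟨x, hx, rfl⟩ := J.elA h
      exact ⟨e.symm ⟨x, hx⟩, by
        show _ = J.nA (e (e.symm ⟨x, hx⟩)).1
        rw [Equiv.apply_symm_apply]⟩
    · rintro ⟨i, rfl⟩
      exact J.memA.2 (e i).2

variable (b) in
def thn (n : ℕ) : PS (G b) (PS (G b) (A b)) :=
  ⟨{X | X.1.encard = n}, sym_all fun g _ h => (Th b n).smul_mem g h⟩

theorem mem_thn {n : ℕ} (X : J.M) : J.E X (J.fA (thn b n)) ↔ IsSubN J.E n (J.sA unA) X := by
  rw [sub_iff]
  constructor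
  · intro h
    obtain ⟨u, hu, rfl⟩ := J.elS h
    exact ⟨⟨u, hu⟩, rfl⟩
  · rintro ⟨u, rfl⟩
    exact J.memS.2 u.2

/-- the set of all permutations of the atoms -/
noncomputable def SS : J.M := J.ν (.w (.w (.p .a .a))) (ps (range gr) (sym_all (by
  rintro g _ ⟨σ, rfl⟩
  exact ⟨_, (gr_sm g σ).symm⟩)))

/-- the name of a permutation -/
noncomputable def pn (σ : S b) : J.M := J.ν (.w (.p .a .a)) (gr σ)

theorem pn_inj {σ τ : S b} (h : pn J σ = pn J τ) : σ = τ := gr_inj (J.inj (.w (.p .a .a)) h)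

theorem mem_SS {z : J.M} : J.E z (SS J) ↔ ∃ σ, z = pn J σ := by
  constructor
  · intro h
    obtain ⟨_, ⟨σ, rfl⟩, e⟩ := (J.mem _ _ _).1 h
    exact ⟨σ, e⟩
  · rintro ⟨σ, rfl⟩
    exact J.mem'.2 ⟨σ, rfl⟩

theorem ap {σ : S b} {x y : A b} : App J.E (pn J σ) (J.nA x) (J.nA y) ↔ σ.1 x = y :=
  (J.app_nu (s := .a) (t := .a)).trans J.mem'

theorem perm_iff (σ : J.M) : J.E σ (SS J) ↔ IsPerm J.E (J.sA unA) σ := by
  rw [mem_SS]
  refine ⟨?_, fun ⟨a, c, d⟩ => ?_⟩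
  · rintro ⟨σ, rfl⟩
    refine ⟨J.all_mem.2 fun p _ => ⟨_, _, J.memA.2 trivial, J.memA.2 trivial,
      J.pair .a .a p.1 p.2⟩, J.allA.2 fun x _ => ⟨J.nA (σ.1 x), ⟨J.memA.2 trivial, (ap J).2 rfl⟩,
        fun y' e => ?_⟩, J.allA.2 fun x _ => ⟨J.nA (σ.1.symm x), ⟨J.memA.2 trivial,
          (ap J).2 (σ.1.apply_symm_apply x)⟩, fun y' e => ?_⟩⟩
    · obtain ⟨y, -, rfl⟩ := J.elA e.1
      exact congrArg J.nA ((ap J).1 e.2).symm
    · obtain ⟨y, -, rfl⟩ := J.elA e.1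
      exact congrArg J.nA ((σ.1.symm_apply_eq).2 ((ap J).1 e.2).symm).symm
  · obtain ⟨s, rfl⟩ := J.sub (.p .a .a) σ fun p e => by
      obtain ⟨x, y, i, j, k⟩ := a p e
      obtain ⟨x, -, rfl⟩ := J.elA i
      obtain ⟨y, -, rfl⟩ := J.elA j
      exact ⟨(x, y), (J.isPair_iff (s := .a) (t := .a)).1 k⟩
    have ap' : ∀ {x y}, App J.E (J.ν (.w (.p .a .a)) s) (J.nA x) (J.nA y) ↔ (x, y) ∈ s.1 :=
      (J.app_nu (s := .a) (t := .a)).trans J.mem'
    have b1 : ∀ x, ∃ y, (x, y) ∈ s.1 ∧ ∀ y', (x, y') ∈ s.1 → y' = y := fun x => by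
      obtain ⟨y, ⟨i, j⟩, k⟩ := c _ (J.memA.2 (mem_unA (A := A b) x))
      obtain ⟨y, -, rfl⟩ := J.elA i
      exact ⟨y, ap'.1 j, fun z l => J.nA_inj (k _ ⟨J.memA.2 trivial, ap'.2 l⟩)⟩
    have c1 : ∀ y, ∃ x, (x, y) ∈ s.1 ∧ ∀ x', (x', y) ∈ s.1 → x' = x := fun x => by
      obtain ⟨y, ⟨i, j⟩, k⟩ := d _ (J.memA.2 (mem_unA (A := A b) x))
      obtain ⟨y, -, rfl⟩ := J.elA i
      exact ⟨y, ap'.1 j, fun z l => J.nA_inj (k _ ⟨J.memA.2 trivial, ap'.2 l⟩)⟩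
    choose f f1 f2 using b1
    choose f' f3 f4 using c1
    obtain ⟨K, k1, -, k2⟩ := ev.1 s.2
    refine ⟨⟨⟨f, f', fun x => (f4 _ _ (f1 x)).symm, fun y => (f2 _ _ (f3 y)).symm⟩,
      fin_mv k1 fun g e x => f2 _ _ ((k2 g e (x, f x)).2 (f1 x))⟩,
        congrArg (J.ν (.w (.p .a .a))) (Subtype.ext (Set.ext fun p => ⟨fun e => ?_, fun e => ?_⟩))⟩
    · exact (f2 _ _ e).symm
    · have := f1 p.1
      rwa [show f p.1 = p.2 from e] at this

/-- the internal graph of an equivariant injection of the sets of `j` atoms into the permutations -/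
theorem ex_inj {j : ℕ} {q : Th b j → S b} (h1 : Function.Injective q)
    (h2 : ∀ (g : G b) X, q (g • X) = g • q X) : ∃ f, Inj J.E f (J.fA (thn b j)) (SS J) := by
  let F : PS (G b) (El (G b) (A b) (.p (.w .a) (.w (.p .a .a)))) :=
    ps {p | ∃ X : Th b j, p = (X.1, gr (q X))} (sym_all (by
      rintro g _ ⟨X, rfl⟩
      refine ⟨g • X, Prod.ext rfl ?_⟩
      show g • gr (q X) = gr (q (g • X))
      rw [gr_sm, h2]))
  have aF : ∀ {x y}, App J.E (J.ν (.w _) F) x y ↔ ∃ X : Th b j, x = J.sA X.1 ∧ y = pn J (q X) :=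
    J.app_iff.trans ⟨by
      rintro ⟨x, y, ⟨X, e⟩, rfl, rfl⟩
      obtain ⟨rfl, rfl⟩ := Prod.ext_iff.1 e
      exact ⟨X, rfl, rfl⟩, fun ⟨X, a, b⟩ => ⟨_, _, ⟨X, rfl⟩, a, b⟩⟩
  refine ⟨J.ν (.w _) F, J.allS.2 fun X hX => ?_, fun x x' y hx hx' hy e e' => ?_⟩
  · refine ⟨pn J (q ⟨X, hX⟩), ⟨(mem_SS J).2 ⟨_, rfl⟩, aF.2 ⟨⟨X, hX⟩, rfl, rfl⟩⟩, fun y' h => ?_⟩
    obtain ⟨Y, i, rfl⟩ := aF.1 h.2
    have : (⟨X, hX⟩ : Th b j) = Y := Subtype.ext (J.sA_inj i)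
    rw [this]
  · obtain ⟨X, rfl, rfl⟩ := aF.1 e
    obtain ⟨Y, rfl, i⟩ := aF.1 e'
    rw [h1 (pn_inj J i)]

theorem no_inj {j : ℕ} (hj : j < k) : ¬ ∃ f, Inj J.E f (SS J) (J.fA (thn b j)) := by
  rintro ⟨f, h1, h2⟩
  have h3 : ∀ κ : Perm ℕ, ∃ X : PS (G b) (A b), X.1.encard = j ∧
      App J.E f (pn J (bs κ)) (J.sA X) ∧ ∀ Y : PS (G b) (A b), Y.1.encard = j →
        App J.E f (pn J (bs κ)) (J.sA Y) → Y = X := fun κ => by
    obtain ⟨y, ⟨h3, h4⟩, h5⟩ := h1 _ ((mem_SS J).2 ⟨bs κ, rfl⟩)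
    obtain ⟨X, hX, rfl⟩ := J.elS h3
    exact ⟨X, hX, h4, fun Y hY h6 => J.sA_inj (h5 _ ⟨J.memS.2 hY, h6⟩)⟩
  choose X hX h4 h5 using h3
  have h6 : Function.Injective X := fun κ κ' e => by
    have := h2 _ _ _ ((mem_SS J).2 ⟨bs κ, rfl⟩) ((mem_SS J).2 ⟨bs κ', rfl⟩)
      (J.memS.2 (hX κ) : J.E _ (J.fA (thn b j))) (h4 κ) (e ▸ h4 κ')
    exact bs_inj (pn_inj J this)
  obtain ⟨F, hF, -, h7⟩ := ev.1 (J.sym_mem (t := .p (.w (.p .a .a)) (.w .a)) f)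
  obtain ⟨Z, hZ, h8⟩ := inv_sub hF
  have h9 : ∀ κ, (X κ).1 ⊆ Z := fun κ => by
    refine h8 _ ?_ fun g hg => ?_
    · rw [hX]; exact_mod_cast hj
    · refine h5 κ _ ?_ ?_
      · rw [sm_im, g.1.1.injective.encard_image]
        exact hX κ
      · have a1 : J.E (J.ν (.p (.w (.p .a .a)) (.w .a)) (gr (bs κ), X κ)) f :=
          (J.app_nu (s := .w (.p .a .a)) (t := .w .a)).1 (h4 κ)
        let p : El (G b) (A b) (.p (.w (.p .a .a)) (.w .a)) := (gr (bs κ), X κ)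
        let p' : El (G b) (A b) (.p (.w (.p .a .a)) (.w .a)) := (gr (bs κ), g • X κ)
        have a4 : g • gr (bs κ) = gr (b := b) (bs κ) := by rw [gr_sm, bs_sm]
        have a3 : g • p = p' := Prod.ext a4 rfl
        have a2 : J.E (J.ν (.p (.w (.p .a .a)) (.w .a)) (g • p)) f := (h7 g hg p).2 a1
        rw [a3] at a2
        exact (J.app_nu (s := .w (.p .a .a)) (t := .w .a)).2 a2
  have h10 : (range fun κ => (X κ).1).Countable :=
    (Set.countable_ofPred_finite_subset hZ).mono (by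
      rintro _ ⟨κ, rfl⟩
      exact ⟨Set.encard_lt_top_iff.1 (by rw [hX]; simp), h9 κ⟩)
  have h11 : Countable (Perm ℕ) := by
    have := h10.to_subtype
    exact (Set.injective_codRestrict (s := range fun κ => (X κ).1) (fun κ => ⟨κ, rfl⟩) |>.2
      (fun κ κ' e => h6 (Subtype.ext e))).countable
  have h12 : Cardinal.mk (Perm ℕ) ≤ Cardinal.aleph0 := Cardinal.mk_le_aleph0
  rw [Cardinal.mk_perm_eq_two_power] at h12
  simp at h12
  exact absurd h12 (not_le.2 Cardinal.aleph0_lt_continuum)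

end Tr

theorem main (b : Blk k) (hk : 1 ≤ k) : ∃ (M : Type) (E : M → M → Prop), IsZF E ∧ ∃ A S T f : M,
    (∀ σ, E σ S ↔ IsPerm E A σ) ∧ (∀ X, E X T ↔ IsSubN E k A X) ∧ Bij E f S T ∧
    ∀ j < k, ∃ T', (∀ X, E X T' ↔ IsSubN E j A X) ∧ (∃ g, Inj E g T' S) ∧
      ¬ ∃ g, Inj E g S T' := by
  obtain ⟨J⟩ := ex_js (Λ := G b) (A := A b) Fx.fx
  obtain ⟨h, ⟨h1, h2⟩, h3⟩ := ex_bij (b := b) hk
  let F : PS (G b) (El (G b) (A b) (.p (.w (.p .a .a)) (.w .a))) :=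
    ps {p | ∃ σ, p = (gr σ, (h σ).1)} (sym_all (by
      rintro g _ ⟨σ, rfl⟩
      exact ⟨g • σ, Prod.ext (gr_sm g σ) (congrArg Subtype.val (h3 g σ).symm)⟩))
  have aF : ∀ {a c}, App J.E (J.ν (.w _) F) a c ↔ ∃ σ, a = Tr.pn J σ ∧ c = J.sA (h σ).1 :=
    J.app_iff.trans ⟨by
      rintro ⟨x, y, ⟨σ, e⟩, rfl, rfl⟩
      obtain ⟨rfl, rfl⟩ := Prod.ext_iff.1 e
      exact ⟨σ, rfl, rfl⟩, fun ⟨σ, a, b⟩ => ⟨_, _, ⟨σ, rfl⟩, a, b⟩⟩
  refine ⟨J.M, J.E, J.zf, J.sA unA, Tr.SS J, J.fA (Tr.thn b k), J.ν (.w _) F, Tr.perm_iff J,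
    Tr.mem_thn J, ⟨fun z hz => ?_, J.allS.2 fun X a => ?_⟩, fun j hj => ⟨_, Tr.mem_thn J, ?_,
      Tr.no_inj J hj⟩⟩
  · obtain ⟨σ, rfl⟩ := (Tr.mem_SS J).1 hz
    refine ⟨_, ⟨J.memS.2 (h σ).2, aF.2 ⟨σ, rfl, rfl⟩⟩, fun y e => ?_⟩
    obtain ⟨τ, i, rfl⟩ := aF.1 e.2
    rw [Tr.pn_inj J i]
  · obtain ⟨σ, c⟩ := h2 ⟨X, a⟩
    refine ⟨_, ⟨(Tr.mem_SS J).2 ⟨σ, rfl⟩, aF.2 ⟨σ, rfl, by rw [c]⟩⟩, fun y e => ?_⟩
    obtain ⟨τ, rfl, i⟩ := aF.1 e.2
    rw [h1 (c.trans (Subtype.ext (J.sA_inj i)))]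
  · obtain ⟨m, rfl⟩ := Nat.exists_eq_add_of_lt hj
    let e := Equiv.ofBijective h ⟨h1, h2⟩
    refine Tr.ex_inj J (q := fun X => e.symm (pad (m + 1) X)) (e.symm.injective.comp (pad_inj _))
      fun g X => ?_
    rw [Equiv.symm_apply_eq]
    show pad (m + 1) (g • X) = h (g • e.symm (pad (m + 1) X))
    rw [h3, pad_sm]
    congr 1
    exact (e.apply_symm_apply _).symm

end Pool.Agent.KS6_45.FK
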